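import Pool.Agent.N89.BD.Base

/-!
# Project BD, task GL: reduction of the conjugates of a point, trace
-/

set_option autoImplicit false

namespace Pool.Agent.N712.BD

open MvPolynomial NumberField Pool.Agent.H901R3.MS Pool.Agent.W659 Pool.Agent.W659.SA
  Pool.Agent.N89.GS Pool.Agent.N89.BD WeierstrassCurve

/-! ### The Galois extension -/

theorem exists_M (K L : Type) [Field K] [NumberField K] [Field L] [NumberField L] [Algebra K L] :
    ∃ (M : Type) (_ : Field M) (_ : NumberField M) (_ : Algebra K M) (_ : IsGalois K M)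
      (T : Fin (Module.finrank K L) ≃ (L →ₐ[K] M)),
      ∀ u : L, algebraMap K M (Algebra.norm K u) = ∏ i, T i u := by
  classical
  have : Module.Finite K L := Module.Finite.of_restrictScalars_finite ℚ K L
  let A := AlgebraicClosure K
  let M := IntermediateField.normalClosure K L A
  have : FiniteDimensional K M := normalClosure.is_finiteDimensional K L A
  have : NumberField M :=
    { to_charZero := inferInstance
      to_finiteDimensional := Module.Finite.trans (R := ℚ) K M }
  have : Normal K M := inferInstance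
  have : IsGalois K M := ⟨⟩
  let e : (L →ₐ[K] M) ≃ (L →ₐ[K] A) := normalClosure.algHomEquiv K L A
  have hcard : Fintype.card (L →ₐ[K] A) = Module.finrank K L := AlgHom.card K L A
  let E : Fin (Module.finrank K L) ≃ (L →ₐ[K] A) := (Fintype.equivFinOfCardEq hcard).symm
  refine ⟨M, inferInstance, inferInstance, inferInstance, inferInstance, E.trans e.symm, fun u => ?_⟩
  have hinj : Function.Injective (algebraMap M A) := (algebraMap M A).injective
  apply hinj
  rw [map_prod, ← IsScalarTower.algebraMap_apply K M A, Algebra.norm_eq_prod_embeddings K A u,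
    ← Equiv.prod_comp E]
  refine Finset.prod_congr rfl fun i _ => ?_
  have h1 : e (e.symm (E i)) = E i := e.apply_symm_apply _
  have h2 := congrArg (fun f : L →ₐ[K] A => f u) h1
  exact h2.symm

/-! ### The points over the base field -/

theorem mp_some {K k : Type} [Field K] [Field k] (f : K →+* k) {a b : ℤ} (x y : K)
    (h : (CV (a : K) (b : K)).toAffine.Nonsingular x y) :
    ∃ h' : (CV (a : k) (b : k)).toAffine.Nonsingular (f x) (f y),
      mp f (Affine.Point.some x y h) = Affine.Point.some (f x) (f y) h' := ⟨_, rfl⟩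

theorem mp_comp {K k k' : Type} [Field K] [Field k] [Field k'] (f : K →+* k) (g : k →+* k') {a b : ℤ}
    (P : Pt (a : K) (b : K)) : mp g (mp f P) = mp (g.comp f) P := by
  rcases P with _ | ⟨x, y, h⟩ <;> rfl

theorem descend {K M : Type} [Field K] [Field M] [Algebra K M] [FiniteDimensional K M] [IsGalois K M]
    {a b : ℤ} (Q : Pt (a : M) (b : M))
    (hQ : ∀ g : M ≃ₐ[K] M, mp (g : M →+* M) Q = Q) :
    ∃ R : Pt (a : K) (b : K), mp (algebraMap K M) R = Q := by
  rcases Q with _ | ⟨x, y, h⟩
  · exact ⟨Affine.Point.zero, rfl⟩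
  · have hx : x ∈ Set.range (algebraMap K M) := by
      rw [IsGalois.mem_range_algebraMap_iff_fixed]
      intro g
      have h1 := hQ g
      obtain ⟨h', h2⟩ := mp_some (g : M →+* M) x y h
      rw [h2, Affine.Point.some.injEq] at h1
      exact h1.1
    have hy : y ∈ Set.range (algebraMap K M) := by
      rw [IsGalois.mem_range_algebraMap_iff_fixed]
      intro g
      have h1 := hQ g
      obtain ⟨h', h2⟩ := mp_some (g : M →+* M) x y h
      rw [h2, Affine.Point.some.injEq] at h1
      exact h1.2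
    obtain ⟨x0, rfl⟩ := hx
    obtain ⟨y0, rfl⟩ := hy
    have h1 : (CV (a : M) (b : M)) = (CV (a : K) (b : K)).map (algebraMap K M) := by
      simp [CV, WeierstrassCurve.map]
    have h2 : (CV (a : K) (b : K)).toAffine.Nonsingular x0 y0 := by
      rw [h1] at h
      exact (WeierstrassCurve.Affine.map_nonsingular _ (algebraMap K M).injective x0 y0).1 h
    exact ⟨Affine.Point.some x0 y0 h2, rfl⟩

/-- reductions depend only on the valuation ring and the residues -/
theorem isRed_congr {K k : Type} [Field K] [Field k] {v v' : Place K k} {a b : ℤ}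
    {red : Pt (a : K) (b : K) → Pt (a : k) (b : k)} (h : IsRed v a b red)
    (hA : ∀ x, x ∈ v.A ↔ x ∈ v'.A) (hr : ∀ x, v.r x = v'.r x) : IsRed v' a b red := by
  refine ⟨h.1, fun x y hP hx => h.2.1 x y hP (fun hc => hx ((hA x).1 hc)), fun x y hP hx => ?_⟩
  obtain ⟨hy, g, hg⟩ := h.2.2 x y hP ((hA x).2 hx)
  refine ⟨(hA y).1 hy, by rw [← hr, ← hr]; exact g, ?_⟩
  rw [hg]
  congr 1
  · exact hr x
  · exact hr y

theorem r_prod {M Ω : Type} [Field M] [Field Ω] (V : Place M Ω) {ι : Type} (s : Finset ι) (f : ι → M)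
    (h : ∀ i ∈ s, f i ∈ V.A) : ∏ i ∈ s, f i ∈ V.A ∧ V.r (∏ i ∈ s, f i) = ∏ i ∈ s, V.r (f i) := by
  classical
  induction s using Finset.induction_on with
  | empty => exact ⟨by simp, by simp⟩
  | insert i s hi ih =>
    obtain ⟨h1, h2⟩ := ih fun j hj => h j (Finset.mem_insert_of_mem hj)
    have h3 := h i (Finset.mem_insert_self i s)
    rw [Finset.prod_insert hi, Finset.prod_insert hi]
    exact ⟨V.A.mul_mem h3 h1, by rw [V.r_mul h3 h1, h2]⟩

section trace
variable {K L M : Type} [Field K] [Field L] [Field M] [Algebra K L] [Algebra K M] [DecidableEq M]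

theorem mp_sum {M' : Type} [Field M'] [DecidableEq M'] (f : M →+* M') {a b : ℤ}
    (hd : Disc (a : M') (b : M')) {ι : Type} (s : Finset ι) (P : ι → Pt (a : M) (b : M)) :
    mp f (∑ i ∈ s, P i) = ∑ i ∈ s, mp f (P i) := by
  classical
  induction s using Finset.induction_on with
  | empty =>
    rw [Finset.sum_empty, Finset.sum_empty]
    rfl
  | insert i s hi ih => rw [Finset.sum_insert hi, Finset.sum_insert hi, mp_add f hd, ih]

theorem trace_fixed {n : ℕ} (T : Fin n ≃ (L →ₐ[K] M)) {a b : ℤ} (hd : Disc (a : M) (b : M))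
    (P : Pt (a : L) (b : L)) (g : M ≃ₐ[K] M) :
    mp (g : M →+* M) (∑ i, mp (T i : L →+* M) P) = ∑ i, mp (T i : L →+* M) P := by
  rw [mp_sum _ hd]
  let F : (L →ₐ[K] M) ≃ (L →ₐ[K] M) :=
    { toFun := fun τ => (g : M →ₐ[K] M).comp τ
      invFun := fun τ => (g.symm : M →ₐ[K] M).comp τ
      left_inv := fun τ => by
        ext x
        exact g.symm_apply_apply _
      right_inv := fun τ => by
        ext x
        exact g.apply_symm_apply _ }
  have h1 : ∀ i, mp (g : M →+* M) (mp (T i : L →+* M) P) = mp (F (T i) : L →+* M) P := by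
    intro i
    rw [mp_comp]
    rfl
  rw [Finset.sum_congr rfl fun i _ => h1 i]
  have h2 : ∑ i, mp (F (T i) : L →+* M) P =
      ∑ i, (fun j => mp (T j : L →+* M) P) (((T.trans F).trans T.symm) i) := by
    refine Finset.sum_congr rfl fun i _ => ?_
    simp only [Equiv.trans_apply, Equiv.apply_symm_apply]
  rw [h2]
  exact Equiv.sum_comp ((T.trans F).trans T.symm) (fun j => mp (T j : L →+* M) P)

end trace

theorem disc_of {M Ω : Type} [Field M] [CharZero M] [Field Ω] {a b : ℤ} (h : Disc (a : Ω) (b : Ω)) :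
    Disc (a : M) (b : M) := by
  intro h0
  apply h
  have h1 : ((2 * (4 * a ^ 3 + 27 * b ^ 2) : ℤ) : M) = 0 := by
    push_cast
    exact h0
  have h2 : (2 * (4 * a ^ 3 + 27 * b ^ 2) : ℤ) = 0 := by exact_mod_cast h1
  have h3 := congrArg (fun n : ℤ => (n : Ω)) h2
  push_cast at h3
  exact h3

theorem main : S_GL1 → S_GL := by
  intro hGL1 K L _ _ _ _ _
  classical
  obtain ⟨M, _, _, _, _, T, hT⟩ := exists_M K L
  have : Module.Finite K M := Module.Finite.of_restrictScalars_finite ℚ K M
  have htr : ∀ (a b : ℤ) (P : Pt (a : L) (b : L)), ∃ R : Pt (a : K) (b : K), Disc (a : M) (b : M) →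
      mp (algebraMap K M) R = ∑ i, mp (T i : L →+* M) P := by
    intro a b P
    by_cases hd : Disc (a : M) (b : M)
    · obtain ⟨R, hR⟩ := descend (K := K) (∑ i, mp (T i : L →+* M) P) (trace_fixed T hd P)
      exact ⟨R, fun _ => hR⟩
    · exact ⟨Affine.Point.zero, fun h => absurd h hd⟩
  choose tr htr using htr
  refine ⟨tr, ?_⟩
  intro k _ _ w φ hφ hw Ω _ _ _ _
  obtain ⟨V, σ, hV1, hV2, hV3⟩ := hGL1 K M k w φ hφ hw Ω
  let F : (L →ₐ[K] M) ≃ (L →ₐ[K] M) :=
    { toFun := fun τ => (σ : M →ₐ[K] M).comp τ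
      invFun := fun τ => (σ.symm : M →ₐ[K] M).comp τ
      left_inv := fun τ => by
        ext x
        exact σ.symm_apply_apply _
      right_inv := fun τ => by
        ext x
        exact σ.apply_symm_apply _ }
  let π : Equiv.Perm (Fin (Module.finrank K L)) := (T.trans F).trans T.symm
  have hπ : ∀ i y, T (π i) y = σ (T i y) := by
    intro i y
    have h1 : T (π i) = F (T i) := T.apply_symm_apply _
    rw [h1]
    rfl
  refine ⟨fun i => Place.pre V (T i : L →+* M), π, ?_, ?_, ?_, ?_, ?_, ?_⟩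
  · intro i x
    have h1 : (T i : L →+* M) (algebraMap K L (x : K)) = algebraMap K M (x : K) := (T i).commutes _
    rw [pre_mem, pre_r, h1]
    obtain ⟨h2, h3⟩ := hV2 (x : K)
    obtain ⟨h4, h5⟩ := hw x
    exact ⟨h2.2 h4, by rw [h3, h5]⟩
  · intro i x
    rw [pre_mem]
    have h1 : IsIntegral ℤ ((T i : L →+* M) (x : L)) :=
      (RingOfIntegers.isIntegral_coe x).map ((T i : L →+* M).toIntAlgHom)
    exact hV1 ⟨(T i : L →+* M) (x : L), h1⟩
  · intro i y hy
    rw [pre_mem] at hy
    rw [pre_mem, pre_r, pre_r]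
    have h1 : (T (π i) : L →+* M) y = σ ((T i : L →+* M) y) := hπ i y
    rw [h1]
    obtain ⟨h2, h3⟩ := hV3 ((T i : L →+* M) y)
    exact ⟨h2.2 hy, h3 hy⟩
  · intro i y hy
    rw [pre_mem] at hy
    rw [pre_mem]
    have h1 : (T (π i) : L →+* M) y = σ ((T i : L →+* M) y) := hπ i y
    rw [h1] at hy
    exact (hV3 _).1.1 hy
  · intro a b hd red red₀ hred hred₀ P
    obtain ⟨Red, hRed⟩ := t_R6 t_R1 t_R2 t_R3 t_R4 t_R5 M Ω V a b hd
    have h1 : ∀ i, red i P = Red (mp (T i : L →+* M) P) := by
      intro i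
      have h2 := isRed_unique (hred i) (isRed_pre hRed (T i : L →+* M))
      exact congrFun h2 P
    rw [Finset.sum_congr rfl fun i _ => h1 i, ← map_sum, ← htr a b P (disc_of hd)]
    have h3 : IsRed (Place.pre V (algebraMap K M)) a b
        (fun Q : Pt (a : K) (b : K) => Red (mp (algebraMap K M) Q)) := isRed_pre hRed _
    have h4 : IsRed (Place.post w (algebraMap k Ω)) a b
        (fun Q : Pt (a : K) (b : K) => mp (algebraMap k Ω) (red₀ Q)) := isRed_post hred₀ _
    have h5 : IsRed (Place.pre V (algebraMap K M)) a b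
        (fun Q : Pt (a : K) (b : K) => mp (algebraMap k Ω) (red₀ Q)) := by
      refine isRed_congr h4 (fun x => ?_) (fun x => ?_)
      · rw [pre_mem]
        exact (hV2 x).1.symm
      · rw [post_r, pre_r]
        exact (hV2 x).2.symm
    exact congrFun (isRed_unique h3 h5) (tr a b P)
  · intro u hu
    have h1 := r_prod V Finset.univ (fun i => T i u) (fun i _ => (hu i).1)
    rw [← hT u] at h1
    obtain ⟨h2, h3⟩ := hV2 (Algebra.norm K u)
    refine ⟨h2.1 h1.1, ?_⟩
    rw [← h3, h1.2]
    refine Finset.prod_congr rfl fun i _ => ?_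
    rw [pre_r]
    rfl

end Pool.Agent.N712.BD
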